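import Pool.Agent.H50.Split.Gap

/-!
# The two lower bounds of the quadratic expression
-/

set_option autoImplicit false

namespace Pool.Agent.H50.Split

open Finset Matrix

variable {V : Type*} [Fintype V] [DecidableEq V] {A : V → V → ℝ} {K : Finset V}
  {W : Matrix V V ℝ}

/-- bound with `d = outDeg + 1` -/
theorem quad_one (hA : SplitAdj A K) (hs : W.transpose = W) (hi : W * W = W) (φ : V → ℝ)
    (hφK : ∀ x, x ∉ K → φ x = 0) (hφ : ∀ u, φ u * ∑ x ∈ K, φ x ^ 2 = φ u)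
    (hWφ : ∀ u, ∑ x, φ x * W x u = 0) :
    ∑ u ∈ K, φ u ^ 2 / (outDeg A K u + 1)
        + (∑ u ∈ K, 1 / (outDeg A K u + 1) - (∑ u ∈ K, φ u / (outDeg A K u + 1)) ^ 2)
          / (1 + ∑ u ∈ K, 1 / (outDeg A K u + 1)) - (K.card : ℝ)
      ≤ -2 * ∑ u ∈ K, W u u + ∑ u ∈ K, ∑ w ∈ K, W u w
        + ∑ u ∈ K, (outDeg A K u + 1) * W u u
        + 2 * ∑ u ∈ K, ∑ x ∈ Kᶜ, A u x * W x u := by
  have hd : ∀ u ∈ K, 0 < outDeg A K u + 1 := fun u _ => by
    have := hA.outDeg_nonneg u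
    linarith
  refine le_trans ?_ (quad_bound hs hi K A (fun u => outDeg A K u + 1) φ hd hφK hφ hWφ)
  have hA2 : ∀ u, ∑ x ∈ Kᶜ, A u x ^ 2 = outDeg A K u := fun u =>
    Finset.sum_congr rfl fun x _ => hA.sq_eq u x
  have ha : - ∑ u ∈ K, (1 - φ u ^ 2 + ∑ x ∈ Kᶜ, A u x ^ 2) / (outDeg A K u + 1)
      = ∑ u ∈ K, φ u ^ 2 / (outDeg A K u + 1) - (K.card : ℝ) := by
    have : (K.card : ℝ) = ∑ u ∈ K, (1 : ℝ) := by simp
    rw [this, ← Finset.sum_neg_distrib, ← Finset.sum_sub_distrib]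
    refine Finset.sum_congr rfl fun u hu => ?_
    rw [hA2]
    have := (hd u hu).ne'
    field_simp
    ring
  have hs0 : 0 ≤ ∑ u ∈ K, 1 / (outDeg A K u + 1) :=
    Finset.sum_nonneg fun u hu => (one_div_pos.2 (hd u hu)).le
  have hb : ∑ u ∈ K, outDeg A K u / (outDeg A K u + 1) ^ 2
      ≤ ∑ x ∈ Kᶜ, (∑ u ∈ K, A u x / (outDeg A K u + 1)) ^ 2 := by
    have h1 : ∀ x ∈ Kᶜ, ∑ u ∈ K, A u x / (outDeg A K u + 1) ^ 2
        ≤ (∑ u ∈ K, A u x / (outDeg A K u + 1)) ^ 2 := by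
      intro x _
      refine le_trans (le_of_eq ?_) (Finset.sum_sq_le_sq_sum_of_nonneg fun u hu =>
        div_nonneg (hA.nonneg u x) (hd u hu).le)
      refine Finset.sum_congr rfl fun u _ => ?_
      rw [div_pow, hA.sq_eq]
    refine le_trans (le_of_eq ?_) (Finset.sum_le_sum h1)
    rw [Finset.sum_comm]
    exact Finset.sum_congr rfl fun u _ => by rw [outDeg, Finset.sum_div]
  have hc : ∑ u ∈ K, (1 / (outDeg A K u + 1)) ^ 2
      + ∑ u ∈ K, outDeg A K u / (outDeg A K u + 1) ^ 2 = ∑ u ∈ K, 1 / (outDeg A K u + 1) := by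
    rw [← Finset.sum_add_distrib]
    refine Finset.sum_congr rfl fun u hu => ?_
    have := (hd u hu).ne'
    field_simp
    ring
  have hfin : (∑ u ∈ K, 1 / (outDeg A K u + 1) - (∑ u ∈ K, φ u / (outDeg A K u + 1)) ^ 2)
          / (1 + ∑ u ∈ K, 1 / (outDeg A K u + 1))
      ≤ (∑ u ∈ K, (1 / (outDeg A K u + 1)) ^ 2 - (∑ u ∈ K, φ u / (outDeg A K u + 1)) ^ 2
          + ∑ x ∈ Kᶜ, (∑ u ∈ K, A u x / (outDeg A K u + 1)) ^ 2)
          / (1 + ∑ u ∈ K, 1 / (outDeg A K u + 1)) := by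
    apply div_le_div_of_nonneg_right _ (by linarith)
    linarith
  rw [ha]
  linarith

/-- bound with `d = outDeg` when there is an outer vertex adjacent to all of `K` -/
theorem quad_zero (hA : SplitAdj A K) (hs : W.transpose = W) (hi : W * W = W) {z : V}
    (hz : z ∉ K) (hAz : ∀ u ∈ K, A u z = 1) :
    - (K.card : ℝ)
      ≤ -2 * ∑ u ∈ K, W u u + ∑ u ∈ K, ∑ w ∈ K, W u w
        + ∑ u ∈ K, outDeg A K u * W u u
        + 2 * ∑ u ∈ K, ∑ x ∈ Kᶜ, A u x * W x u := by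
  have hzK : z ∈ Kᶜ := Finset.mem_compl.2 hz
  have hb1 : ∀ u ∈ K, 1 ≤ outDeg A K u := fun u hu => by
    rw [← hAz u hu]
    exact Finset.single_le_sum (f := fun x => A u x) (fun x _ => hA.nonneg u x) hzK
  have hd : ∀ u ∈ K, 0 < outDeg A K u := fun u hu => lt_of_lt_of_le one_pos (hb1 u hu)
  refine le_trans ?_ (quad_bound hs hi K A (fun u => outDeg A K u) (fun _ => 0) hd
    (fun _ _ => rfl) (fun _ => by simp) (fun _ => by simp))
  have hA2 : ∀ u, ∑ x ∈ Kᶜ, A u x ^ 2 = outDeg A K u := fun u =>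
    Finset.sum_congr rfl fun x _ => hA.sq_eq u x
  set s := ∑ u ∈ K, 1 / outDeg A K u with hsdef
  have hs0 : 0 ≤ s := Finset.sum_nonneg fun u hu => (one_div_pos.2 (hd u hu)).le
  have ha : - ∑ u ∈ K, (1 - (0 : ℝ) ^ 2 + ∑ x ∈ Kᶜ, A u x ^ 2) / (outDeg A K u)
      = - s - (K.card : ℝ) := by
    have : (K.card : ℝ) = ∑ u ∈ K, (1 : ℝ) := by simp
    rw [this, hsdef, ← Finset.sum_neg_distrib, ← Finset.sum_neg_distrib, ← Finset.sum_sub_distrib]
    refine Finset.sum_congr rfl fun u hu => ?_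
    rw [hA2]
    have := (hd u hu).ne'
    field_simp
    ring
  have hz2 : ∑ u ∈ K, A u z / outDeg A K u = s :=
    Finset.sum_congr rfl fun u hu => by rw [hAz u hu]
  have hb : s ^ 2 + ∑ u ∈ K, (outDeg A K u - 1) / (outDeg A K u) ^ 2
      ≤ ∑ x ∈ Kᶜ, (∑ u ∈ K, A u x / (outDeg A K u)) ^ 2 := by
    have h1 : ∀ x ∈ Kᶜ.erase z, ∑ u ∈ K, A u x / (outDeg A K u) ^ 2
        ≤ (∑ u ∈ K, A u x / (outDeg A K u)) ^ 2 := by
      intro x _
      refine le_trans (le_of_eq ?_) (Finset.sum_sq_le_sq_sum_of_nonneg fun u hu =>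
        div_nonneg (hA.nonneg u x) (hd u hu).le)
      refine Finset.sum_congr rfl fun u _ => ?_
      rw [div_pow, hA.sq_eq]
    rw [← Finset.add_sum_erase _ _ hzK, hz2]
    refine add_le_add le_rfl (le_trans (le_of_eq ?_) (Finset.sum_le_sum h1))
    rw [Finset.sum_comm]
    refine Finset.sum_congr rfl fun u hu => ?_
    rw [← Finset.sum_div, Finset.sum_erase_eq_sub hzK, hAz u hu, outDeg]
  have hc : ∑ u ∈ K, (1 / (outDeg A K u)) ^ 2
      + ∑ u ∈ K, (outDeg A K u - 1) / (outDeg A K u) ^ 2 = s := by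
    rw [← Finset.sum_add_distrib]
    refine Finset.sum_congr rfl fun u hu => ?_
    have := (hd u hu).ne'
    field_simp
    ring
  have hfin : s ≤ (∑ u ∈ K, (1 / (outDeg A K u)) ^ 2 - (∑ u ∈ K, (0 : ℝ) / (outDeg A K u)) ^ 2
          + ∑ x ∈ Kᶜ, (∑ u ∈ K, A u x / (outDeg A K u)) ^ 2) / (1 + s) := by
    rw [le_div_iff₀ (by linarith)]
    have h0 : ∑ u ∈ K, (0 : ℝ) / (outDeg A K u) = 0 := by simp
    rw [h0]
    nlinarith
  rw [ha]
  linarith

end Pool.Agent.H50.Split
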