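import Pool.Agent.H50.Split.Square

/-!
# The gap of a split graph

`A` is the adjacency function of a split graph with clique `K` and independent set `Kᶜ`.
-/

set_option autoImplicit false

namespace Pool.Agent.H50.Split

open Finset Matrix

variable {V : Type*} [Fintype V] [DecidableEq V]

/-- The adjacency function of a split graph. -/
structure SplitAdj (A : V → V → ℝ) (K : Finset V) : Prop where
  val : ∀ u v, A u v = 0 ∨ A u v = 1
  symm : ∀ u v, A u v = A v u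
  diag : ∀ u, A u u = 0
  clique : ∀ u ∈ K, ∀ v ∈ K, u ≠ v → A u v = 1
  indep : ∀ u, u ∉ K → ∀ v, v ∉ K → A u v = 0

/-- number of outer neighbours of `u` -/
noncomputable def outDeg (A : V → V → ℝ) (K : Finset V) (u : V) : ℝ := ∑ x ∈ Kᶜ, A u x

/-- the sum over all edges of `P u u + P v v + 2 P u v - 1` -/
noncomputable def energy (A : V → V → ℝ) (P : Matrix V V ℝ) : ℝ := ∑ u, ∑ v, A u v * (P u u + P u v - 1 / 2)

variable {A : V → V → ℝ} {K : Finset V}

theorem SplitAdj.nonneg (hA : SplitAdj A K) (u v : V) : 0 ≤ A u v := by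
  rcases hA.val u v with h | h <;> rw [h] <;> norm_num

theorem SplitAdj.le_one (hA : SplitAdj A K) (u v : V) : A u v ≤ 1 := by
  rcases hA.val u v with h | h <;> rw [h] <;> norm_num

theorem SplitAdj.sq_eq (hA : SplitAdj A K) (u v : V) : A u v ^ 2 = A u v := by
  rcases hA.val u v with h | h <;> rw [h] <;> norm_num

theorem SplitAdj.outDeg_nonneg (hA : SplitAdj A K) (u : V) : 0 ≤ outDeg A K u :=
  Finset.sum_nonneg fun x _ => hA.nonneg u x

section

variable {P : Matrix V V ℝ}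

theorem diag_nonneg (hs : P.transpose = P) (hi : P * P = P) (u : V) : 0 ≤ P u u := by
  rw [← gram hs hi u u]
  exact Finset.sum_nonneg fun x _ => mul_self_nonneg _

theorem one_sub_symm (hs : P.transpose = P) : (1 - P).transpose = 1 - P := by
  rw [Matrix.transpose_sub, Matrix.transpose_one, hs]

theorem one_sub_idem (hi : P * P = P) : (1 - P) * (1 - P) = 1 - P := by
  rw [Matrix.mul_sub, Matrix.sub_mul, Matrix.sub_mul, hi]
  simp

/-- The exact formula for the energy of a split graph. -/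
theorem energy_eq (hA : SplitAdj A K) (hs : P.transpose = P) :
    energy A P = (K.card : ℝ) * ((K.card : ℝ) - 1) / 2
      - ((K.card : ℝ) - 2) * ∑ u ∈ K, (1 - P) u u - ∑ u ∈ K, ∑ w ∈ K, (1 - P) u w
      - ∑ u ∈ K, outDeg A K u * (1 - P) u u
      - 2 * ∑ u ∈ K, ∑ x ∈ Kᶜ, A u x * (1 - P) x u
      + ∑ x ∈ Kᶜ, (∑ u ∈ K, A u x) * P x x := by
  have hsym : ∀ u v, P v u = P u v := fun u v => congrFun (congrFun hs u) v
  have e1 : ∀ u ∈ K, ∑ w ∈ K, A u w * (P u u + P u w - 1 / 2)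
      = (K.card : ℝ) / 2 - 1 / 2 - ((K.card : ℝ) - 2) * (1 - P) u u
        - ∑ w ∈ K, (1 - P) u w := by
    intro u hu
    have h1 : ∀ w ∈ K, A u w * (P u u + P u w - 1 / 2)
        = (1 / 2 - (1 - P) u u - (1 - P) u w) - (if u = w then (1 / 2 - 2 * (1 - P) u u) else 0)
            := by
      intro w hw
      by_cases h : u = w
      · subst h
        rw [hA.diag, if_pos rfl]
        ring
      · rw [hA.clique u hu w hw h, if_neg h]
        simp only [Matrix.sub_apply, Matrix.one_apply_eq, Matrix.one_apply_ne h]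
        ring
    rw [Finset.sum_congr rfl h1, Finset.sum_sub_distrib, Finset.sum_ite_eq K u, if_pos hu,
      Finset.sum_sub_distrib, Finset.sum_const, nsmul_eq_mul]
    ring
  have e2 : ∀ u ∈ K, ∀ x ∈ Kᶜ, A u x * (P u u + P u x - 1 / 2) + A x u * (P x x + P x u - 1 / 2)
      = A u x * P x x - A u x * (1 - P) u u - 2 * (A u x * (1 - P) x u) := by
    intro u hu x hx
    have hne : x ≠ u := fun h => (Finset.mem_compl.1 hx) (h ▸ hu)
    rw [hA.symm x u, hsym x u]
    simp only [Matrix.sub_apply, Matrix.one_apply_eq, Matrix.one_apply_ne hne]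
    rw [hsym u x]
    ring
  unfold energy
  have f1 : ∑ u, ∑ v, A u v * (P u u + P u v - 1 / 2)
      = ∑ u ∈ K, ∑ w ∈ K, A u w * (P u u + P u w - 1 / 2)
        + (∑ u ∈ K, ∑ x ∈ Kᶜ, A u x * (P u u + P u x - 1 / 2)
          + ∑ x ∈ Kᶜ, ∑ u ∈ K, A x u * (P x x + P x u - 1 / 2)) := by
    rw [← Finset.sum_add_sum_compl K]
    have g1 : ∑ u ∈ K, ∑ v, A u v * (P u u + P u v - 1 / 2)
        = ∑ u ∈ K, ∑ w ∈ K, A u w * (P u u + P u w - 1 / 2)
          + ∑ u ∈ K, ∑ x ∈ Kᶜ, A u x * (P u u + P u x - 1 / 2) := by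
      rw [← Finset.sum_add_distrib]
      exact Finset.sum_congr rfl fun u _ => (Finset.sum_add_sum_compl K _).symm
    have g2 : ∑ x ∈ Kᶜ, ∑ v, A x v * (P x x + P x v - 1 / 2)
        = ∑ x ∈ Kᶜ, ∑ u ∈ K, A x u * (P x x + P x u - 1 / 2) := by
      refine Finset.sum_congr rfl fun x hx => ?_
      rw [← Finset.sum_add_sum_compl K]
      have : ∑ v ∈ Kᶜ, A x v * (P x x + P x v - 1 / 2) = 0 := by
        refine Finset.sum_eq_zero fun v hv => ?_
        rw [hA.indep x (Finset.mem_compl.1 hx) v (Finset.mem_compl.1 hv), zero_mul]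
      rw [this, add_zero]
    rw [g1, g2]
    ring
  rw [f1, Finset.sum_congr rfl e1, Finset.sum_comm (s := Kᶜ) (t := K), ← Finset.sum_add_distrib]
  have f2 : ∑ u ∈ K, (∑ x ∈ Kᶜ, A u x * (P u u + P u x - 1 / 2)
        + ∑ x ∈ Kᶜ, A x u * (P x x + P x u - 1 / 2))
      = ∑ x ∈ Kᶜ, (∑ u ∈ K, A u x) * P x x - ∑ u ∈ K, outDeg A K u * (1 - P) u u
        - 2 * ∑ u ∈ K, ∑ x ∈ Kᶜ, A u x * (1 - P) x u := by
    have g1 : ∑ x ∈ Kᶜ, (∑ u ∈ K, A u x) * P x x = ∑ u ∈ K, ∑ x ∈ Kᶜ, A u x * P x x := by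
      rw [Finset.sum_comm]
      exact Finset.sum_congr rfl fun x _ => Finset.sum_mul _ _ _
    rw [g1, Finset.mul_sum, ← Finset.sum_sub_distrib, ← Finset.sum_sub_distrib]
    refine Finset.sum_congr rfl fun u hu => ?_
    rw [← Finset.sum_add_distrib, Finset.sum_congr rfl (e2 u hu), Finset.sum_sub_distrib,
      Finset.sum_sub_distrib, Finset.mul_sum, outDeg, Finset.sum_mul]
  rw [f2, Finset.sum_sub_distrib, Finset.sum_sub_distrib, Finset.sum_const, nsmul_eq_mul,
    ← Finset.mul_sum]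
  ring

/-- The key upper bound. Here `h` is `0` or `1`. -/
theorem energy_le (hA : SplitAdj A K) (hs : P.transpose = P) (hi : P * P = P) (h k X : ℝ)
    (hk : ∑ u, P u u = k) (hdeg : ∀ x ∈ Kᶜ, ∑ u ∈ K, A u x ≤ (K.card : ℝ) - h)
    (hX : X - K.card ≤ -2 * ∑ u ∈ K, (1 - P) u u + ∑ u ∈ K, ∑ w ∈ K, (1 - P) u w
      + ∑ u ∈ K, (outDeg A K u + h) * (1 - P) u u
        + 2 * ∑ u ∈ K, ∑ x ∈ Kᶜ, A u x * (1 - P) x u) :
    energy A P ≤ k * (k + 1) / 2 - (((K.card : ℝ) - k) * ((K.card : ℝ) - k - 1) / 2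
      - h * ((K.card : ℝ) - k)) - X := by
  rw [energy_eq hA hs]
  have h1 : ∑ x ∈ Kᶜ, (∑ u ∈ K, A u x) * P x x ≤ ((K.card : ℝ) - h) * ∑ x ∈ Kᶜ, P x x := by
    rw [Finset.mul_sum]
    exact Finset.sum_le_sum fun x hx =>
      mul_le_mul_of_nonneg_right (hdeg x hx) (diag_nonneg hs hi x)
  have h2 : ∑ x ∈ Kᶜ, P x x = k - K.card + ∑ u ∈ K, (1 - P) u u := by
    have : ∑ u ∈ K, (1 - P) u u = (K.card : ℝ) - ∑ u ∈ K, P u u := by
      simp only [Matrix.sub_apply, Matrix.one_apply_eq]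
      rw [Finset.sum_sub_distrib, Finset.sum_const, nsmul_eq_mul, mul_one]
    rw [this, ← hk, ← Finset.sum_add_sum_compl K]
    ring
  rw [h2] at h1
  have h3 : ∑ u ∈ K, (outDeg A K u + h) * (1 - P) u u
      = ∑ u ∈ K, outDeg A K u * (1 - P) u u + h * ∑ u ∈ K, (1 - P) u u := by
    rw [Finset.mul_sum, ← Finset.sum_add_distrib]
    exact Finset.sum_congr rfl fun u _ => by ring
  rw [h3] at hX
  nlinarith [h1, hX]

end

end Pool.Agent.H50.Split
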