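import Pool.Agent.H50.Split.Square

/-!
# The final numerical inequality
-/

set_option autoImplicit false

namespace Pool.Agent.H50.Split

open Finset Matrix

variable {V : Type*} [Fintype V] [DecidableEq V]

/-- the case of exactly one light vertex `u0` -/
theorem one_light (K : Finset V) (d φ : V → ℝ) {u0 : V} (hu0 : u0 ∈ K) (h2 : d u0 = 2)
    (h3 : ∀ u ∈ K.erase u0, 3 ≤ d u) (hφ : ∑ u ∈ K, φ u ^ 2 = 1) {κ : ℝ} (hκ0 : 0 ≤ κ)
    (hκ1 : κ < 1) (hκ : ∑ u ∈ K, d u * φ u ^ 2 + (∑ u ∈ K, φ u) ^ 2 = 2 + κ) :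
    (1 - κ) ^ 2 / 3 ≤ κ * ∑ u ∈ K.erase u0, 1 / d u := by
  set s' := ∑ u ∈ K.erase u0, 1 / d u with hs'
  set Δ := ∑ u ∈ K.erase u0, d u * φ u ^ 2 with hΔ
  set β := ∑ u ∈ K.erase u0, φ u ^ 2 with hβ
  set T := ∑ u ∈ K.erase u0, φ u with hT
  have e1 : ∑ u ∈ K, φ u ^ 2 = φ u0 ^ 2 + β := (Finset.add_sum_erase _ _ hu0).symm
  have e2 : ∑ u ∈ K, d u * φ u ^ 2 = 2 * φ u0 ^ 2 + Δ := by
    rw [← Finset.add_sum_erase _ _ hu0, h2]
  have e3 : ∑ u ∈ K, φ u = φ u0 + T := (Finset.add_sum_erase _ _ hu0).symm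
  rw [e1] at hφ
  rw [e2, e3] at hκ
  have hs0 : 0 ≤ s' := Finset.sum_nonneg fun u hu => by
    have := h3 u hu
    positivity
  have hβ0 : 0 ≤ β := Finset.sum_nonneg fun u _ => sq_nonneg _
  have hβΔ : 3 * β ≤ Δ := by
    rw [hβ, hΔ, Finset.mul_sum]
    exact Finset.sum_le_sum fun u hu => mul_le_mul_of_nonneg_right (h3 u hu) (sq_nonneg _)
  have hcs : T ^ 2 ≤ s' * Δ := by
    refine Finset.sum_sq_le_sum_mul_sum_of_sq_le_mul _ (fun u hu => ?_) (fun u hu => ?_)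
      (fun u hu => ?_)
    · have := h3 u hu
      positivity
    · have := h3 u hu
      positivity
    · have h := h3 u hu
      have : d u ≠ 0 := by linarith
      field_simp
      exact le_rfl
  set α := φ u0 with hα
  -- the key inequality
  have hI : (1 - κ) * Δ / 3 + (α + T) ^ 2 ≤ κ * α ^ 2 := by
    nlinarith
  by_contra hcon
  push Not at hcon
  have hΔ0 : 0 ≤ Δ := by linarith
  have hδ : 0 < (1 - κ) ^ 2 / 3 - κ * s' := by linarith
  have hq : s' * (1 - κ) * α ^ 2 + 2 * s' * α * T + ((1 - κ) / 3 + s') * T ^ 2 ≤ 0 := by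
    have h1 := mul_le_mul_of_nonneg_left hI hs0
    have h2 : (1 - κ) / 3 * T ^ 2 ≤ (1 - κ) / 3 * (s' * Δ) :=
      mul_le_mul_of_nonneg_left hcs (by linarith)
    nlinarith
  rcases eq_or_lt_of_le hs0 with hs | hs
  · -- `s' = 0`
    rw [← hs] at hcs
    have hT0 : T = 0 := by
      have : T ^ 2 = 0 := le_antisymm (by linarith) (sq_nonneg _)
      exact pow_eq_zero_iff (two_ne_zero) |>.1 this
    rw [hT0] at hI
    nlinarith
  · have h1 : (s' * (1 - κ) * α + s' * T) ^ 2 + s' * ((1 - κ) ^ 2 / 3 - κ * s') * T ^ 2 ≤ 0 := by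
      have h2 := mul_le_mul_of_nonneg_left hq (mul_nonneg hs0 (by linarith : (0 : ℝ) ≤ 1 - κ))
      rw [mul_zero] at h2
      nlinarith
    have hpos : 0 < s' * ((1 - κ) ^ 2 / 3 - κ * s') := mul_pos hs hδ
    have hT0 : T ^ 2 = 0 := by
      have h3 : s' * ((1 - κ) ^ 2 / 3 - κ * s') * T ^ 2 ≤ 0 := by
        have := sq_nonneg (s' * (1 - κ) * α + s' * T)
        linarith
      have h4 : 0 ≤ T ^ 2 := sq_nonneg _
      by_contra hne
      have : 0 < T ^ 2 := lt_of_le_of_ne h4 (Ne.symm hne)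
      have := mul_pos hpos this
      linarith
    have hT1 : T = 0 := pow_eq_zero_iff (two_ne_zero) |>.1 hT0
    rw [hT1] at hI
    nlinarith

/-- the final numerical inequality -/
theorem final_ineq (K : Finset V) (d φ : V → ℝ) (hd : ∀ u ∈ K, d u = 2 ∨ 3 ≤ d u)
    (hφ : ∑ u ∈ K, φ u ^ 2 = 1) :
    3 ≤ ∑ u ∈ K, d u * φ u ^ 2 + (∑ u ∈ K, φ u) ^ 2 + ∑ u ∈ K, φ u ^ 2 / d u
      + (∑ u ∈ K, 1 / d u - (∑ u ∈ K, φ u / d u) ^ 2) / (1 + ∑ u ∈ K, 1 / d u) := by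
  have hd2 : ∀ u ∈ K, 2 ≤ d u := fun u hu => by
    rcases hd u hu with h | h <;> linarith
  have hd0 : ∀ u ∈ K, 0 < d u := fun u hu => by linarith [hd2 u hu]
  set x := ∑ u ∈ K, d u * φ u ^ 2 + (∑ u ∈ K, φ u) ^ 2 with hx
  set s := ∑ u ∈ K, 1 / d u with hs
  set Y := ∑ u ∈ K, φ u / d u with hY
  have hs0 : 0 ≤ s := Finset.sum_nonneg fun u hu => (one_div_pos.2 (hd0 u hu)).le
  have hx2 : 2 ≤ x := by
    have : ∑ u ∈ K, 2 * φ u ^ 2 ≤ ∑ u ∈ K, d u * φ u ^ 2 :=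
      Finset.sum_le_sum fun u hu => mul_le_mul_of_nonneg_right (hd2 u hu) (sq_nonneg _)
    rw [← Finset.mul_sum, hφ] at this
    have h0 := sq_nonneg (∑ u ∈ K, φ u)
    linarith
  have hx0 : 0 < x := by linarith
  have hN : 1 / x ≤ ∑ u ∈ K, φ u ^ 2 / d u - Y ^ 2 / (1 + s) := by
    have h := sq_lemma K d φ (fun u => φ u / x) hd0
    have a1 : ∑ u ∈ K, φ u * (φ u / x) = 1 / x := by
      rw [← hφ, Finset.sum_div]
      exact Finset.sum_congr rfl fun u _ => by ring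
    have a2 : ∑ u ∈ K, d u * (φ u / x) ^ 2 + (∑ u ∈ K, φ u / x) ^ 2 = 1 / x := by
      have b1 : ∑ u ∈ K, d u * (φ u / x) ^ 2 = (∑ u ∈ K, d u * φ u ^ 2) / x ^ 2 := by
        rw [Finset.sum_div]
        exact Finset.sum_congr rfl fun u _ => by ring_nf
      rw [b1, ← Finset.sum_div, div_pow, ← add_div, ← hx]
      field_simp
    rw [a1, add_assoc, a2] at h
    linarith
  have hmain : x ≤ (x - 1) ^ 2 * (1 + s) := by
    by_cases hx3 : 3 ≤ x
    · nlinarith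
    push Not at hx3
    by_cases hs1 : 1 ≤ s
    · nlinarith [mul_nonneg (by linarith : (0 : ℝ) ≤ 2 * x - 1) (by linarith : (0 : ℝ) ≤ x - 2),
        mul_nonneg (sq_nonneg (x - 1)) (by linarith : (0 : ℝ) ≤ s - 1)]
    push Not at hs1
    -- there is a light vertex
    have hex : ∃ u ∈ K, d u = 2 := by
      by_contra hno
      push Not at hno
      have : ∀ u ∈ K, 3 ≤ d u := fun u hu => (hd u hu).resolve_left (hno u hu)
      have h1 : ∑ u ∈ K, 3 * φ u ^ 2 ≤ ∑ u ∈ K, d u * φ u ^ 2 :=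
        Finset.sum_le_sum fun u hu => mul_le_mul_of_nonneg_right (this u hu) (sq_nonneg _)
      rw [← Finset.mul_sum, hφ] at h1
      have h0 := sq_nonneg (∑ u ∈ K, φ u)
      linarith
    obtain ⟨u0, hu0, h2⟩ := hex
    have hother : ∀ u ∈ K.erase u0, 3 ≤ d u := by
      intro u hu
      refine (hd u (Finset.mem_of_mem_erase hu)).resolve_left fun h => ?_
      have h1 : 1 / d u0 + 1 / d u ≤ s := by
        rw [hs, ← Finset.add_sum_erase _ _ hu0]
        refine add_le_add le_rfl ?_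
        exact Finset.single_le_sum (f := fun v => 1 / d v) (fun v hv =>
          (one_div_pos.2 (hd0 v (Finset.mem_of_mem_erase hv))).le) hu
      rw [h2, h] at h1
      norm_num at h1
      linarith
    have hκ := one_light K d φ hu0 h2 hother hφ (κ := x - 2) (by linarith) (by linarith)
      (by rw [← hx]; ring)
    have hs' : s = 1 / 2 + ∑ u ∈ K.erase u0, 1 / d u := by
      rw [hs, ← Finset.add_sum_erase _ _ hu0, h2]
    set s' := ∑ u ∈ K.erase u0, 1 / d u with hs'def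
    rw [hs']
    set κ := x - 2 with hκdef
    have hxκ : x = 2 + κ := by rw [hκdef]; ring
    have hκ0 : 0 ≤ κ := by linarith
    have hκ1 : κ < 1 := by linarith
    have hκpos : 0 < κ := by
      rcases eq_or_lt_of_le hκ0 with h | h
      · rw [← h] at hκ
        norm_num at hκ
      · exact h
    rw [hxκ]
    have h1 : κ * (2 + κ) ≤ κ * ((2 + κ - 1) ^ 2 * (1 + (1 / 2 + s'))) := by
      have e : κ * ((2 + κ - 1) ^ 2 * (1 + (1 / 2 + s')))
          = (1 + κ) ^ 2 * (3 * κ / 2 + κ * s') := by ring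
      rw [e]
      have h2 : (1 + κ) ^ 2 * (3 * κ / 2 + (1 - κ) ^ 2 / 3)
          ≤ (1 + κ) ^ 2 * (3 * κ / 2 + κ * s') :=
        mul_le_mul_of_nonneg_left (by linarith) (sq_nonneg _)
      refine le_trans ?_ h2
      have e2 : (1 + κ) ^ 2 * (3 * κ / 2 + (1 - κ) ^ 2 / 3) - κ * (2 + κ)
          = (κ + 2) / 6 * (2 * κ ^ 3 + 5 * κ ^ 2 - 2 * κ + 1) := by ring
      have h3 : 0 ≤ 2 * κ ^ 3 + 5 * κ ^ 2 - 2 * κ + 1 := by
        have := pow_pos hκpos 3
        nlinarith [sq_nonneg (κ - 1 / 5)]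
      have h4 : 0 ≤ (κ + 2) / 6 * (2 * κ ^ 3 + 5 * κ ^ 2 - 2 * κ + 1) :=
        mul_nonneg (by linarith) h3
      linarith
    exact le_of_mul_le_mul_left h1 hκpos
  have hfin : 1 / (1 + s) ≤ x + 1 / x - 2 := by
    have h1s : 0 < 1 + s := by linarith
    rw [div_le_iff₀ h1s]
    have e : (x + 1 / x - 2) * (1 + s) = (x - 1) ^ 2 * (1 + s) / x := by
      field_simp
      ring
    rw [e, le_div_iff₀ hx0]
    linarith
  have e : (s - Y ^ 2) / (1 + s) = 1 - 1 / (1 + s) - Y ^ 2 / (1 + s) := by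
    have h1s : (1 + s) ≠ 0 := by linarith
    field_simp
    ring
  rw [e]
  linarith

end Pool.Agent.H50.Split
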