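import Pool.Agent.H50.Split.Main

/-!
# The signless Brouwer inequality for split graphs: graph version
-/

set_option autoImplicit false

namespace Pool.Agent.H50.Split

open Finset Matrix

variable {V : Type*} [Fintype V] [DecidableEq V]

/-- The trace inequality for the signless Laplacian of a split graph. -/
theorem split_le {P : Matrix V V ℝ} (hs : P.transpose = P) (hi : P * P = P) (G : SimpleGraph V)
    [DecidableRel G.Adj] (k : ℕ) (hk : ∑ u, P u u = k) (K : Finset V)
    (hK : ∀ u ∈ K, ∀ v ∈ K, u ≠ v → G.Adj u v) (hI : ∀ u ∉ K, ∀ v ∉ K, ¬ G.Adj u v) :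
    ∑ u, ∑ v, P u v * (G.degMatrix ℝ + G.adjMatrix ℝ) v u
      ≤ (G.edgeFinset.card : ℝ) + (k : ℝ) * (k + 1) / 2 := by
  set c : V → V → ℝ := fun u v => if G.Adj u v then 1 else 0 with hc
  have hA : SplitAdj c K := by
    refine ⟨fun u v => ?_, fun u v => ?_, fun u => ?_, fun u hu v hv huv => ?_,
      fun u hu v hv => ?_⟩
    · by_cases h : G.Adj u v <;> simp [hc, h]
    · simp only [hc, G.adj_comm u v]
    · simp [hc]
    · simp only [hc, if_pos (hK u hu v hv huv)]
    · simp only [hc, if_neg (hI u hu v hv)]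
  have hdeg : ∀ u, (G.degree u : ℝ) = ∑ v, c u v := by
    intro u
    simp only [hc]
    rw [Finset.sum_boole, ← G.card_neighborFinset_eq_degree, G.neighborFinset_eq_filter]
  have h2m : 2 * (G.edgeFinset.card : ℝ) = ∑ u, ∑ v, c u v := by
    have := G.sum_degrees_eq_twice_card_edges
    have h' : (∑ u, (G.degree u : ℝ)) = 2 * (G.edgeFinset.card : ℝ) := by exact_mod_cast this
    rw [← h']
    exact Finset.sum_congr rfl fun u _ => hdeg u
  have htr : ∑ u, ∑ v, P u v * (G.degMatrix ℝ + G.adjMatrix ℝ) v u
      = ∑ u, ∑ v, c u v * (P u u + P u v) := by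
    refine Finset.sum_congr rfl fun u _ => ?_
    have : ∀ v, P u v * (G.degMatrix ℝ + G.adjMatrix ℝ) v u
        = (if v = u then P u v * (G.degree v : ℝ) else 0) + c u v * P u v := by
      intro v
      simp only [Matrix.add_apply, SimpleGraph.degMatrix, Matrix.diagonal_apply,
        SimpleGraph.adjMatrix_apply, hc, G.adj_comm v u]
      split_ifs <;> ring
    rw [Finset.sum_congr rfl fun v _ => this v, Finset.sum_add_distrib,
      Finset.sum_ite_eq' univ u, if_pos (mem_univ u), hdeg u, Finset.mul_sum,
      ← Finset.sum_add_distrib]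
    exact Finset.sum_congr rfl fun v _ => by ring
  have hen : energy c P = ∑ u, ∑ v, c u v * (P u u + P u v) - (∑ u, ∑ v, c u v) / 2 := by
    unfold energy
    rw [Finset.sum_div, ← Finset.sum_sub_distrib]
    refine Finset.sum_congr rfl fun u _ => ?_
    rw [Finset.sum_div, ← Finset.sum_sub_distrib]
    exact Finset.sum_congr rfl fun v _ => by ring
  have h := energy_le_split K.card K rfl hA P k hs hi hk
  rw [hen, ← h2m] at h
  rw [htr]
  linarith

end Pool.Agent.H50.Split
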