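import Mathlib

/-!
# A vector supported on `K` and killed by a projection of rank `< |K|`
-/

set_option autoImplicit false

namespace Pool.Agent.H50.Split

open Finset Matrix

variable {V : Type*} [Fintype V] [DecidableEq V]

theorem exists_ker {P : Matrix V V ℝ} (hi : P * P = P) {k : ℕ} (hk : ∑ u, P u u = (k : ℝ))
    {K : Finset V} (h : k < K.card) :
    ∃ φ : V → ℝ, (∀ x, x ∉ K → φ x = 0) ∧ ∑ x ∈ K, φ x ^ 2 = 1 ∧
      ∀ u, ∑ x, P u x * φ x = 0 := by
  classical
  set f : (V → ℝ) →ₗ[ℝ] (V → ℝ) := Matrix.toLin' P with hf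
  have hproj : LinearMap.IsProj (LinearMap.range f) f := by
    refine ⟨fun x => ⟨x, rfl⟩, ?_⟩
    rintro _ ⟨x, rfl⟩
    rw [hf, Matrix.toLin'_apply, Matrix.toLin'_apply, Matrix.mulVec_mulVec, hi]
  have htr : (Module.finrank ℝ (LinearMap.range f) : ℝ) = k := by
    rw [← hproj.trace, hf, Matrix.trace_toLin'_eq, ← hk]
    rfl
  have hrank : Module.finrank ℝ (LinearMap.range f) = k := by exact_mod_cast htr
  -- extension by zero
  let ext : (K → ℝ) →ₗ[ℝ] (V → ℝ) :=
    { toFun := fun g v => if hv : v ∈ K then g ⟨v, hv⟩ else 0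
      map_add' := by
        intro a b
        funext v
        by_cases hv : v ∈ K <;> simp [hv]
      map_smul' := by
        intro r a
        funext v
        by_cases hv : v ∈ K <;> simp [hv] }
  have hker : LinearMap.ker (f.rangeRestrict ∘ₗ ext) ≠ ⊥ := by
    apply LinearMap.ker_ne_bot_of_finrank_lt
    rw [hrank]
    simpa using h
  obtain ⟨g, hg, hg0⟩ := Submodule.exists_mem_ne_zero_of_ne_bot hker
  have hg1 : f (ext g) = 0 := by
    have := LinearMap.mem_ker.1 hg
    have h2 := congrArg Subtype.val this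
    simpa using h2
  have hpos : 0 < ∑ x ∈ K, ext g x ^ 2 := by
    have : ∃ i, g i ≠ 0 := by
      by_contra hno
      push Not at hno
      exact hg0 (funext hno)
    obtain ⟨i, hgi⟩ := this
    refine Finset.sum_pos' (fun x _ => sq_nonneg _) ⟨i.1, i.2, ?_⟩
    have : ext g i.1 = g i := by simp [ext]
    rw [this]
    positivity
  set c := Real.sqrt (∑ x ∈ K, ext g x ^ 2) with hc
  have hc0 : 0 < c := Real.sqrt_pos.2 hpos
  refine ⟨fun x => ext g x / c, fun x hx => ?_, ?_, fun u => ?_⟩
  · have : ext g x = 0 := by simp [ext, hx]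
    simp [this]
  · have : ∀ x, (ext g x / c) ^ 2 = ext g x ^ 2 / c ^ 2 := fun x => div_pow _ _ _
    rw [Finset.sum_congr rfl fun x _ => this x, ← Finset.sum_div, hc, Real.sq_sqrt hpos.le,
      div_self hpos.ne']
  · have h1 : (P.mulVec (ext g)) u = 0 := by
      have := congrFun hg1 u
      rwa [hf, Matrix.toLin'_apply] at this
    have h2 : ∑ x, P u x * (ext g x / c) = (∑ x, P u x * ext g x) / c := by
      rw [Finset.sum_div]
      exact Finset.sum_congr rfl fun x _ => by ring
    rw [h2]
    have h3 : ∑ x, P u x * ext g x = 0 := h1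
    rw [h3, zero_div]

end Pool.Agent.H50.Split
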