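import Pool.Agent.H50.Split.Cases
import Pool.Agent.H50.Split.Ineq
import Pool.Agent.H50.Split.Ker

/-!
# The signless Brouwer inequality for split graphs
-/

set_option autoImplicit false

namespace Pool.Agent.H50.Split

open Finset Matrix

variable {V : Type*} [Fintype V] [DecidableEq V] {A : V → V → ℝ} {K : Finset V}
  {P : Matrix V V ℝ}

theorem SplitAdj.outDeg_card (hA : SplitAdj A K) (u : V) :
    ∃ n : ℕ, outDeg A K u = n := by
  classical
  refine ⟨((Kᶜ).filter fun x => A u x = 1).card, ?_⟩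
  have : ∀ x ∈ Kᶜ, A u x = if A u x = 1 then (1 : ℝ) else 0 := by
    intro x _
    rcases hA.val u x with h | h <;> simp [h]
  rw [outDeg, Finset.sum_congr rfl this, Finset.sum_boole]

/-- the quadratic form of the signless Laplacian -/
noncomputable def qform (A : V → V → ℝ) (φ : V → ℝ) : ℝ := ∑ u, ∑ v, A u v * (φ u ^ 2 + φ u * φ v)

theorem energy_add (A : V → V → ℝ) (P : Matrix V V ℝ) (φ : V → ℝ) :
    energy A (P + Matrix.vecMulVec φ φ) = energy A P + qform A φ := by
  unfold energy qform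
  rw [← Finset.sum_add_distrib]
  refine Finset.sum_congr rfl fun u _ => ?_
  rw [← Finset.sum_add_distrib]
  refine Finset.sum_congr rfl fun v _ => ?_
  rw [Matrix.add_apply, Matrix.add_apply, Matrix.vecMulVec_apply, Matrix.vecMulVec_apply]
  ring

theorem qform_eq (hA : SplitAdj A K) {φ : V → ℝ} (hφK : ∀ x, x ∉ K → φ x = 0)
    (hφ1 : ∑ x ∈ K, φ x ^ 2 = 1) :
    qform A φ = (K.card : ℝ) - 2 + ∑ u ∈ K, outDeg A K u * φ u ^ 2 + (∑ u ∈ K, φ u) ^ 2 := by
  unfold qform
  have h1 : ∑ u, ∑ v, A u v * (φ u ^ 2 + φ u * φ v)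
      = ∑ u ∈ K, ∑ v, A u v * (φ u ^ 2 + φ u * φ v) := by
    symm
    refine Finset.sum_subset (Finset.subset_univ K) fun u _ hu => ?_
    refine Finset.sum_eq_zero fun v _ => ?_
    rw [hφK u hu]
    ring
  have h2 : ∀ u ∈ K, ∑ v, A u v * (φ u ^ 2 + φ u * φ v)
      = ((K.card : ℝ) - 2) * φ u ^ 2 + φ u * ∑ w ∈ K, φ w + outDeg A K u * φ u ^ 2 := by
    intro u hu
    rw [← Finset.sum_add_sum_compl K]
    have a1 : ∑ v ∈ K, A u v * (φ u ^ 2 + φ u * φ v)
        = ((K.card : ℝ) - 2) * φ u ^ 2 + φ u * ∑ w ∈ K, φ w := by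
      have : ∀ v ∈ K, A u v * (φ u ^ 2 + φ u * φ v)
          = (φ u ^ 2 + φ u * φ v) - (if u = v then 2 * φ u ^ 2 else 0) := by
        intro v hv
        by_cases h : u = v
        · subst h
          rw [hA.diag, if_pos rfl]
          ring
        · rw [hA.clique u hu v hv h, if_neg h]
          ring
      rw [Finset.sum_congr rfl this, Finset.sum_sub_distrib, Finset.sum_ite_eq K u, if_pos hu,
        Finset.sum_add_distrib, Finset.sum_const, nsmul_eq_mul, ← Finset.mul_sum]
      ring
    have a2 : ∑ v ∈ Kᶜ, A u v * (φ u ^ 2 + φ u * φ v) = outDeg A K u * φ u ^ 2 := by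
      rw [outDeg, Finset.sum_mul]
      refine Finset.sum_congr rfl fun v hv => ?_
      rw [hφK v (Finset.mem_compl.1 hv)]
      ring
    rw [a1, a2]
  rw [h1, Finset.sum_congr rfl h2, Finset.sum_add_distrib, Finset.sum_add_distrib,
    ← Finset.mul_sum, hφ1, ← Finset.sum_mul]
  ring

section update

variable {φ : V → ℝ}

theorem upd_symm (hs : P.transpose = P) :
    (P + Matrix.vecMulVec φ φ).transpose = P + Matrix.vecMulVec φ φ := by
  rw [Matrix.transpose_add, hs, Matrix.transpose_vecMulVec]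

theorem upd_idem (hs : P.transpose = P) (hi : P * P = P) (hφ1 : ∑ x, φ x ^ 2 = 1)
    (hP : ∀ u, ∑ x, P u x * φ x = 0) :
    (P + Matrix.vecMulVec φ φ) * (P + Matrix.vecMulVec φ φ) = P + Matrix.vecMulVec φ φ := by
  have hsym : ∀ u v, P v u = P u v := fun u v => congrFun (congrFun hs u) v
  have h1 : P * Matrix.vecMulVec φ φ = 0 := by
    ext u v
    rw [Matrix.mul_apply, Matrix.zero_apply]
    have : ∀ x, P u x * Matrix.vecMulVec φ φ x v = (P u x * φ x) * φ v := by
      intro x
      rw [Matrix.vecMulVec_apply]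
      ring
    rw [Finset.sum_congr rfl fun x _ => this x, ← Finset.sum_mul, hP u, zero_mul]
  have h2 : Matrix.vecMulVec φ φ * P = 0 := by
    ext u v
    rw [Matrix.mul_apply, Matrix.zero_apply]
    have : ∀ x, Matrix.vecMulVec φ φ u x * P x v = φ u * (P v x * φ x) := by
      intro x
      rw [Matrix.vecMulVec_apply, hsym v x]
      ring
    rw [Finset.sum_congr rfl fun x _ => this x, ← Finset.mul_sum, hP v, mul_zero]
  have h3 : Matrix.vecMulVec φ φ * Matrix.vecMulVec φ φ = Matrix.vecMulVec φ φ := by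
    ext u v
    rw [Matrix.mul_apply]
    have : ∀ x, Matrix.vecMulVec φ φ u x * Matrix.vecMulVec φ φ x v
        = (φ u * φ v) * φ x ^ 2 := by
      intro x
      rw [Matrix.vecMulVec_apply, Matrix.vecMulVec_apply]
      ring
    rw [Finset.sum_congr rfl fun x _ => this x, ← Finset.mul_sum, hφ1, mul_one,
      Matrix.vecMulVec_apply]
  rw [Matrix.add_mul, Matrix.mul_add, Matrix.mul_add, hi, h1, h2, h3]
  simp

theorem upd_trace (hφ1 : ∑ x, φ x ^ 2 = 1) :
    ∑ u, (P + Matrix.vecMulVec φ φ) u u = ∑ u, P u u + 1 := by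
  have : ∀ u, (P + Matrix.vecMulVec φ φ) u u = P u u + φ u ^ 2 := by
    intro u
    rw [Matrix.add_apply, Matrix.vecMulVec_apply]
    ring
  rw [Finset.sum_congr rfl fun u _ => this u, Finset.sum_add_distrib, hφ1]

theorem upd_ker (hs : P.transpose = P) (hφ1 : ∑ x, φ x ^ 2 = 1)
    (hP : ∀ u, ∑ x, P u x * φ x = 0) (u : V) :
    ∑ x, φ x * (1 - (P + Matrix.vecMulVec φ φ)) x u = 0 := by
  have hsym : ∀ u v, P v u = P u v := fun u v => congrFun (congrFun hs u) v
  have : ∀ x, φ x * (1 - (P + Matrix.vecMulVec φ φ)) x u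
      = (if x = u then φ x else 0) - P u x * φ x - φ u * φ x ^ 2 := by
    intro x
    rw [Matrix.sub_apply, Matrix.add_apply, Matrix.vecMulVec_apply, Matrix.one_apply, hsym u x]
    split_ifs <;> ring
  rw [Finset.sum_congr rfl fun x _ => this x, Finset.sum_sub_distrib, Finset.sum_sub_distrib,
    Finset.sum_ite_eq' univ u, if_pos (Finset.mem_univ u), hP u, ← Finset.mul_sum, hφ1]
  ring

end update

/-- the case of large rank -/
theorem energy_large (hA : SplitAdj A K) (hs : P.transpose = P) (hi : P * P = P) {k : ℕ}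
    (hk : ∑ u, P u u = (k : ℝ)) (hdeg : ∀ x ∈ Kᶜ, ∑ u ∈ K, A u x ≤ (K.card : ℝ) - 1)
    (hck : K.card ≤ k) : energy A P ≤ (k : ℝ) * (k + 1) / 2 := by
  have hq := quad_one hA (one_sub_symm hs) (one_sub_idem hi) (fun _ => 0) (fun _ _ => rfl)
    (fun _ => by simp) (fun _ => by simp)
  have hs0 : 0 ≤ ∑ u ∈ K, 1 / (outDeg A K u + 1) := Finset.sum_nonneg fun u _ => by
    have := hA.outDeg_nonneg u
    positivity
  have hX : 0 ≤ ∑ u ∈ K, (0 : ℝ) ^ 2 / (outDeg A K u + 1)
        + (∑ u ∈ K, 1 / (outDeg A K u + 1) - (∑ u ∈ K, 0 / (outDeg A K u + 1)) ^ 2)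
          / (1 + ∑ u ∈ K, 1 / (outDeg A K u + 1)) := by
    simp only [zero_pow two_ne_zero, zero_div, Finset.sum_const_zero, sub_zero, zero_add]
    positivity
  have hle := energy_le hA hs hi 1 k _ hk hdeg hq
  have hck' : (K.card : ℝ) ≤ k := by exact_mod_cast hck
  nlinarith

/-- the case of small rank, by induction on the defect -/
theorem energy_small (hA : SplitAdj A K) (hout : ∀ u ∈ K, outDeg A K u ≠ 0)
    (hdeg : ∀ x ∈ Kᶜ, ∑ u ∈ K, A u x ≤ (K.card : ℝ) - 1) :
    ∀ j : ℕ, ∀ (P : Matrix V V ℝ) (k : ℕ), P.transpose = P → P * P = P →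
      ∑ u, P u u = (k : ℝ) → k + (j + 1) = K.card → energy A P ≤ (k : ℝ) * (k + 1) / 2 := by
  have hd : ∀ u ∈ K, outDeg A K u + 1 = 2 ∨ 3 ≤ outDeg A K u + 1 := by
    intro u hu
    obtain ⟨n, hn⟩ := hA.outDeg_card u
    have h0 := hout u hu
    rw [hn] at h0 ⊢
    have hn0 : n ≠ 0 := by exact_mod_cast h0
    rcases Nat.lt_or_ge n 2 with h | h
    · left
      have : n = 1 := by omega
      rw [this]
      norm_num
    · right
      have : (2 : ℝ) ≤ n := by exact_mod_cast h
      linarith
  have hd1 : ∀ u ∈ K, 1 ≤ outDeg A K u := fun u hu => by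
    rcases hd u hu with h | h <;> linarith
  intro j
  induction j with
  | zero =>
    intro P k hs hi hk hkc
    obtain ⟨φ, hφK, hφ1, hPφ⟩ := exists_ker hi hk (K := K) (by omega)
    have hφ1' : ∑ x, φ x ^ 2 = 1 := by
      rw [← hφ1]
      symm
      exact Finset.sum_subset (Finset.subset_univ K) fun x _ hx => by rw [hφK x hx]; ring
    have hs' := upd_symm (φ := φ) hs
    have hi' := upd_idem hs hi hφ1' hPφ
    have hk' : ∑ u, (P + Matrix.vecMulVec φ φ) u u = (K.card : ℝ) := by
      rw [upd_trace hφ1', hk, ← hkc]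
      push_cast
      ring
    have hq := quad_one hA (one_sub_symm hs') (one_sub_idem hi') φ hφK
      (fun u => by rw [hφ1, mul_one]) (upd_ker hs hφ1' hPφ)
    have hle := energy_le hA hs' hi' 1 (K.card : ℝ) _ hk' hdeg hq
    rw [energy_add, qform_eq hA hφK hφ1] at hle
    have hfin := final_ineq K (fun u => outDeg A K u + 1) φ hd hφ1
    have e : ∑ u ∈ K, (outDeg A K u + 1) * φ u ^ 2 = ∑ u ∈ K, outDeg A K u * φ u ^ 2 + 1 := by
      have e1 : ∑ u ∈ K, (outDeg A K u + 1) * φ u ^ 2
          = ∑ u ∈ K, outDeg A K u * φ u ^ 2 + ∑ u ∈ K, φ u ^ 2 := by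
        rw [← Finset.sum_add_distrib]
        exact Finset.sum_congr rfl fun u _ => by ring
      rw [e1, hφ1]
    rw [e] at hfin
    have hkc' : (K.card : ℝ) = k + 1 := by rw [← hkc]; push_cast; ring
    rw [hkc'] at hle
    nlinarith
  | succ j ih =>
    intro P k hs hi hk hkc
    obtain ⟨φ, hφK, hφ1, hPφ⟩ := exists_ker hi hk (K := K) (by omega)
    have hφ1' : ∑ x, φ x ^ 2 = 1 := by
      rw [← hφ1]
      symm
      exact Finset.sum_subset (Finset.subset_univ K) fun x _ hx => by rw [hφK x hx]; ring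
    have hs' := upd_symm (φ := φ) hs
    have hi' := upd_idem hs hi hφ1' hPφ
    have hk' : ∑ u, (P + Matrix.vecMulVec φ φ) u u = ((k + 1 : ℕ) : ℝ) := by
      rw [upd_trace hφ1', hk]
      push_cast
      ring
    have hle := ih _ (k + 1) hs' hi' hk' (by omega)
    rw [energy_add, qform_eq hA hφK hφ1] at hle
    have h1 : 1 ≤ ∑ u ∈ K, outDeg A K u * φ u ^ 2 := by
      rw [← hφ1]
      refine Finset.sum_le_sum fun u hu => ?_
      have := hd1 u hu
      nlinarith [sq_nonneg (φ u)]
    have h2 := sq_nonneg (∑ u ∈ K, φ u)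
    have hkc' : (K.card : ℝ) = k + (j + 2) := by rw [← hkc]; push_cast; ring
    have hj : (0 : ℝ) ≤ j := Nat.cast_nonneg j
    rw [hkc'] at hle
    push_cast at hle
    nlinarith

/-- The signless Brouwer inequality for split graphs. -/
theorem energy_le_split : ∀ (n : ℕ) (K : Finset V), K.card = n → SplitAdj A K →
    ∀ (P : Matrix V V ℝ) (k : ℕ), P.transpose = P → P * P = P → ∑ u, P u u = (k : ℝ) →
      energy A P ≤ (k : ℝ) * (k + 1) / 2 := by
  intro n
  induction n with
  | zero =>
    intro K hK hA P k hs hi hk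
    have hK0 : K = ∅ := Finset.card_eq_zero.1 hK
    subst hK0
    have : energy A P = 0 := by
      unfold energy
      refine Finset.sum_eq_zero fun u _ => Finset.sum_eq_zero fun v _ => ?_
      rw [hA.indep u (Finset.notMem_empty u) v (Finset.notMem_empty v), zero_mul]
    rw [this]
    positivity
  | succ n ih =>
    intro K hK hA P k hs hi hk
    by_cases hz : ∃ z, z ∉ K ∧ ∀ u ∈ K, A u z = 1
    · obtain ⟨z, hz, hAz⟩ := hz
      have hq := quad_zero hA (one_sub_symm hs) (one_sub_idem hi) hz hAz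
      have hdeg : ∀ x ∈ Kᶜ, ∑ u ∈ K, A u x ≤ (K.card : ℝ) - 0 := by
        intro x _
        rw [sub_zero]
        have := Finset.sum_le_card_nsmul K (fun u => A u x) 1 fun u _ => hA.le_one u x
        simpa using this
      have hle := energy_le hA hs hi 0 k 0 hk hdeg (by simpa using hq)
      have hint : 0 ≤ ((K.card : ℝ) - k) * ((K.card : ℝ) - k - 1) := by
        rcases Nat.lt_or_ge k K.card with h | h
        · have h1 : (k : ℝ) + 1 ≤ K.card := by exact_mod_cast h
          exact mul_nonneg (by linarith) (by linarith)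
        · have h1 : (K.card : ℝ) ≤ k := by exact_mod_cast h
          exact mul_nonneg_of_nonpos_of_nonpos (by linarith) (by linarith)
      linarith
    · push Not at hz
      have hdeg : ∀ x ∈ Kᶜ, ∑ u ∈ K, A u x ≤ (K.card : ℝ) - 1 := by
        intro x hx
        obtain ⟨u, hu, hux⟩ := hz x (Finset.mem_compl.1 hx)
        have h0 : A u x = 0 := (hA.val u x).resolve_right hux
        rw [← Finset.add_sum_erase _ _ hu, h0, zero_add]
        have h1 := Finset.sum_le_card_nsmul (K.erase u) (fun u => A u x) 1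
          fun u _ => hA.le_one u x
        rw [Finset.card_erase_of_mem hu, nsmul_eq_mul, mul_one] at h1
        have h2 : ((K.card - 1 : ℕ) : ℝ) = (K.card : ℝ) - 1 := by
          rw [Nat.cast_sub (Finset.card_pos.2 ⟨u, hu⟩)]
          norm_num
        rw [h2] at h1
        exact h1
      by_cases hu0 : ∃ u ∈ K, outDeg A K u = 0
      · obtain ⟨u0, hu0, hout⟩ := hu0
        have hz0 : ∀ v, v ∉ K → A u0 v = 0 := by
          intro v hv
          have := (Finset.sum_eq_zero_iff_of_nonneg (fun x _ => hA.nonneg u0 x)).1 hout v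
            (Finset.mem_compl.2 hv)
          exact this
        refine ih (K.erase u0) (by rw [Finset.card_erase_of_mem hu0, hK]; rfl)
          ⟨hA.val, hA.symm, hA.diag, fun u hu v hv huv =>
            hA.clique u (Finset.mem_of_mem_erase hu) v (Finset.mem_of_mem_erase hv) huv,
            fun u hu v hv => ?_⟩ P k hs hi hk
        by_cases hu' : u = u0
        · subst hu'
          by_cases hv' : v = u
          · rw [hv']
            exact hA.diag u
          · exact hz0 v fun h => hv (Finset.mem_erase.2 ⟨hv', h⟩)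
        · have huK : u ∉ K := fun h => hu (Finset.mem_erase.2 ⟨hu', h⟩)
          by_cases hv' : v = u0
          · subst hv'
            rw [hA.symm]
            exact hz0 u huK
          · exact hA.indep u huK v fun h => hv (Finset.mem_erase.2 ⟨hv', h⟩)
      · push Not at hu0
        rcases Nat.lt_or_ge k K.card with h | h
        · exact energy_small hA hu0 hdeg (K.card - k - 1) P k hs hi hk (by omega)
        · exact energy_large hA hs hi hk hdeg h

end Pool.Agent.H50.Split
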