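import Mathlib

/-!
# Completing the square for projections

For a symmetric idempotent matrix `W` (with columns `ρ_u = W e_u`) we bound from below
`-2 ∑ ⟨τ_u, ρ_u⟩ + ∑ d_u |ρ_u|^2 + |∑ ρ_u|^2` (sums over `u ∈ K`).
-/

set_option autoImplicit false

namespace Pool.Agent.H50.Split

open Finset Matrix

variable {V : Type*} [Fintype V] [DecidableEq V]

/-- Completing the square in one coordinate. -/
theorem sq_lemma (K : Finset V) (d t r : V → ℝ) (hd : ∀ u ∈ K, 0 < d u) :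
    - ∑ u ∈ K, t u ^ 2 / d u + (∑ u ∈ K, t u / d u) ^ 2 / (1 + ∑ u ∈ K, 1 / d u)
      ≤ -2 * ∑ u ∈ K, t u * r u + ∑ u ∈ K, d u * r u ^ 2 + (∑ u ∈ K, r u) ^ 2 := by
  have hs : 0 ≤ ∑ u ∈ K, 1 / d u := Finset.sum_nonneg fun u hu => (one_div_pos.2 (hd u hu)).le
  set s := ∑ u ∈ K, 1 / d u with hsdef
  have hs1 : 0 < 1 + s := by linarith
  set St := ∑ u ∈ K, t u / d u with hSt
  set m := St / (1 + s) with hm
  have h1 : 0 ≤ ∑ u ∈ K, d u * (r u - (t u - m) / d u) ^ 2 :=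
    Finset.sum_nonneg fun u hu => mul_nonneg (hd u hu).le (sq_nonneg _)
  have h2 : ∑ u ∈ K, d u * (r u - (t u - m) / d u) ^ 2
      = ∑ u ∈ K, d u * r u ^ 2 - 2 * ∑ u ∈ K, t u * r u + 2 * m * ∑ u ∈ K, r u
        + ∑ u ∈ K, t u ^ 2 / d u - 2 * m * St + m ^ 2 * s := by
    rw [hSt, hsdef, Finset.mul_sum, Finset.mul_sum, Finset.mul_sum, Finset.mul_sum,
      ← Finset.sum_sub_distrib, ← Finset.sum_add_distrib, ← Finset.sum_add_distrib,
      ← Finset.sum_sub_distrib, ← Finset.sum_add_distrib]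
    refine Finset.sum_congr rfl fun u hu => ?_
    have := (hd u hu).ne'
    field_simp
    ring
  have h3 : 0 ≤ (∑ u ∈ K, r u - m) ^ 2 := sq_nonneg _
  have h4 : m * (1 + s) = St := by rw [hm]; field_simp
  have h5 : St ^ 2 / (1 + s) = m * St := by rw [hm]; ring
  rw [h5]
  have h6 : m ^ 2 * (1 + s) = m * St := by rw [← h4]; ring
  nlinarith

variable {W : Matrix V V ℝ}

theorem gram (hs : W.transpose = W) (hi : W * W = W) (u w : V) :
    ∑ x, W x u * W x w = W u w := by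
  have h := congrFun (congrFun hi u) w
  rw [Matrix.mul_apply] at h
  rw [← h]
  refine Finset.sum_congr rfl fun x _ => ?_
  have : W x u = W u x := by
    have := congrFun (congrFun hs u) x
    simpa [Matrix.transpose_apply] using this
  rw [this]

/-- The lower bound for a general projection `W`. -/
theorem quad_bound (hs : W.transpose = W) (hi : W * W = W) (K : Finset V) (A : V → V → ℝ)
    (d φ : V → ℝ) (hd : ∀ u ∈ K, 0 < d u) (hφK : ∀ x, x ∉ K → φ x = 0)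
    (hφ : ∀ u, φ u * ∑ x ∈ K, φ x ^ 2 = φ u) (hWφ : ∀ u, ∑ x, φ x * W x u = 0) :
    - ∑ u ∈ K, (1 - φ u ^ 2 + ∑ x ∈ Kᶜ, A u x ^ 2) / d u
        + (∑ u ∈ K, (1 / d u) ^ 2 - (∑ u ∈ K, φ u / d u) ^ 2
          + ∑ x ∈ Kᶜ, (∑ u ∈ K, A u x / d u) ^ 2) / (1 + ∑ u ∈ K, 1 / d u)
      ≤ -2 * ∑ u ∈ K, W u u + ∑ u ∈ K, ∑ w ∈ K, W u w + ∑ u ∈ K, d u * W u u
        + 2 * ∑ u ∈ K, ∑ x ∈ Kᶜ, A u x * W x u := by
  set t : V → V → ℝ := fun u x =>
    if x ∈ K then (if x = u then 1 else 0) - φ u * φ x else - A u x with ht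
  have htK : ∀ u, ∀ x ∈ K, t u x = (if x = u then 1 else 0) - φ u * φ x := by
    intro u x hx; simp only [ht, if_pos hx]
  have htI : ∀ u, ∀ x ∈ Kᶜ, t u x = - A u x := by
    intro u x hx; simp only [ht, if_neg (Finset.mem_compl.1 hx)]
  have key : ∑ x, (- ∑ u ∈ K, t u x ^ 2 / d u
        + (∑ u ∈ K, t u x / d u) ^ 2 / (1 + ∑ u ∈ K, 1 / d u))
      ≤ ∑ x, (-2 * ∑ u ∈ K, t u x * W x u + ∑ u ∈ K, d u * W x u ^ 2
        + (∑ u ∈ K, W x u) ^ 2) :=
    Finset.sum_le_sum fun x _ => sq_lemma K d (fun u => t u x) (fun u => W x u) hd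
  have e1 : ∑ x, ∑ u ∈ K, t u x * W x u
      = ∑ u ∈ K, W u u - ∑ u ∈ K, ∑ x ∈ Kᶜ, A u x * W x u := by
    rw [Finset.sum_comm, ← Finset.sum_sub_distrib]
    refine Finset.sum_congr rfl fun u hu => ?_
    rw [← Finset.sum_add_sum_compl K]
    have a1 : ∑ x ∈ K, t u x * W x u = W u u := by
      have : ∀ x ∈ K, t u x * W x u = (if x = u then W x u else 0) - φ u * (φ x * W x u) := by
        intro x hx
        rw [htK u x hx]
        split_ifs <;> ring
      rw [Finset.sum_congr rfl this, Finset.sum_sub_distrib, Finset.sum_ite_eq' K u, if_pos hu,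
        ← Finset.mul_sum]
      have h0 : ∑ x ∈ K, φ x * W x u = 0 := by
        rw [← hWφ u]
        exact Finset.sum_subset (Finset.subset_univ K) fun x _ hx => by rw [hφK x hx, zero_mul]
      rw [h0, mul_zero, sub_zero]
    have a2 : ∑ x ∈ Kᶜ, t u x * W x u = - ∑ x ∈ Kᶜ, A u x * W x u := by
      rw [← Finset.sum_neg_distrib]
      exact Finset.sum_congr rfl fun x hx => by rw [htI u x hx]; ring
    rw [a1, a2]
    ring
  have e2 : ∑ x, ∑ u ∈ K, d u * W x u ^ 2 = ∑ u ∈ K, d u * W u u := by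
    rw [Finset.sum_comm]
    refine Finset.sum_congr rfl fun u _ => ?_
    rw [← Finset.mul_sum, ← gram hs hi u u]
    congr 1
    exact Finset.sum_congr rfl fun x _ => by ring
  have e3 : ∑ x, (∑ u ∈ K, W x u) ^ 2 = ∑ u ∈ K, ∑ w ∈ K, W u w := by
    have : ∀ x, (∑ u ∈ K, W x u) ^ 2 = ∑ u ∈ K, ∑ w ∈ K, W x u * W x w := by
      intro x
      rw [sq, Finset.sum_mul_sum]
    rw [Finset.sum_congr rfl fun x _ => this x, Finset.sum_comm]
    refine Finset.sum_congr rfl fun u _ => ?_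
    rw [Finset.sum_comm]
    exact Finset.sum_congr rfl fun w _ => gram hs hi u w
  have e4 : ∑ x, ∑ u ∈ K, t u x ^ 2 / d u
      = ∑ u ∈ K, (1 - φ u ^ 2 + ∑ x ∈ Kᶜ, A u x ^ 2) / d u := by
    rw [Finset.sum_comm]
    refine Finset.sum_congr rfl fun u hu => ?_
    rw [← Finset.sum_div]
    congr 1
    rw [← Finset.sum_add_sum_compl K]
    have a1 : ∑ x ∈ K, t u x ^ 2 = 1 - φ u ^ 2 := by
      have : ∀ x ∈ K, t u x ^ 2 = (if x = u then 1 - 2 * (φ u * φ x) else 0)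
          + φ u ^ 2 * φ x ^ 2 := by
        intro x hx
        rw [htK u x hx]
        split_ifs <;> ring
      rw [Finset.sum_congr rfl this, Finset.sum_add_distrib, Finset.sum_ite_eq' K u, if_pos hu,
        ← Finset.mul_sum]
      have h0 := hφ u
      have : φ u ^ 2 * ∑ x ∈ K, φ x ^ 2 = φ u * (φ u * ∑ x ∈ K, φ x ^ 2) := by ring
      rw [this, h0]
      ring
    have a2 : ∑ x ∈ Kᶜ, t u x ^ 2 = ∑ x ∈ Kᶜ, A u x ^ 2 :=
      Finset.sum_congr rfl fun x hx => by rw [htI u x hx]; ring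
    rw [a1, a2]
  have e5 : ∑ x, (∑ u ∈ K, t u x / d u) ^ 2
      = ∑ u ∈ K, (1 / d u) ^ 2 - (∑ u ∈ K, φ u / d u) ^ 2
          + ∑ x ∈ Kᶜ, (∑ u ∈ K, A u x / d u) ^ 2 := by
    rw [← Finset.sum_add_sum_compl K]
    set Y := ∑ u ∈ K, φ u / d u with hY
    have a0 : ∀ x ∈ K, ∑ u ∈ K, t u x / d u = 1 / d x - φ x * Y := by
      intro x hx
      have : ∀ u ∈ K, t u x / d u = (if x = u then 1 / d u else 0) - φ x * (φ u / d u) := by
        intro u hu
        rw [htK u x hx]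
        split_ifs <;> ring
      rw [Finset.sum_congr rfl this, Finset.sum_sub_distrib, Finset.sum_ite_eq K x, if_pos hx,
        ← Finset.mul_sum]
    have a1 : ∑ x ∈ K, (∑ u ∈ K, t u x / d u) ^ 2 = ∑ u ∈ K, (1 / d u) ^ 2 - Y ^ 2 := by
      have : ∀ x ∈ K, (∑ u ∈ K, t u x / d u) ^ 2
          = (1 / d x) ^ 2 - 2 * Y * (φ x / d x) + Y ^ 2 * φ x ^ 2 := by
        intro x hx
        rw [a0 x hx]
        ring
      rw [Finset.sum_congr rfl this, Finset.sum_add_distrib, Finset.sum_sub_distrib,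
        ← Finset.mul_sum, ← Finset.mul_sum, ← hY]
      have h0 : Y * ∑ x ∈ K, φ x ^ 2 = Y := by
        rw [hY, Finset.sum_mul]
        refine Finset.sum_congr rfl fun u _ => ?_
        rw [div_mul_eq_mul_div, hφ u]
      have : Y ^ 2 * ∑ x ∈ K, φ x ^ 2 = Y * (Y * ∑ x ∈ K, φ x ^ 2) := by ring
      rw [this, h0]
      ring
    have a2 : ∑ x ∈ Kᶜ, (∑ u ∈ K, t u x / d u) ^ 2 = ∑ x ∈ Kᶜ, (∑ u ∈ K, A u x / d u) ^ 2 := by
      refine Finset.sum_congr rfl fun x hx => ?_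
      have : ∑ u ∈ K, t u x / d u = - ∑ u ∈ K, A u x / d u := by
        rw [← Finset.sum_neg_distrib]
        exact Finset.sum_congr rfl fun u _ => by rw [htI u x hx]; ring
      rw [this]
      ring
    rw [a1, a2]
  rw [Finset.sum_add_distrib, Finset.sum_neg_distrib, ← Finset.sum_div, e4, e5,
    Finset.sum_add_distrib, Finset.sum_add_distrib, ← Finset.mul_sum, e1, e2, e3] at key
  linarith

end Pool.Agent.H50.Split
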